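import Mathlib

set_option autoImplicit false

namespace Pool.Agent.Results.MP_387adc_co.NotUniversal

/-- The elements of the poset: `a n` (middle elements), `u I` (upper elements), `l J` (lower
elements) and a top element. -/
inductive A : Type
  | l : Finset ℕ → A
  | a : ℕ → A
  | u : Finset ℕ → A
  | top : A

/-- the order relation: `l J ≤ a n` iff `n ∈ J`, `a n ≤ u I` iff `n ∈ I`, `l J ≤ u I` iff `I` and `J`
meet, and everything is below `top`. -/
def rel : A → A → Prop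
  | _, .top => True
  | .l J, .l J' => J = J'
  | .l J, .a n => n ∈ J
  | .l J, .u I => ∃ n, n ∈ J ∧ n ∈ I
  | .a n, .a m => n = m
  | .a n, .u I => n ∈ I
  | .u I, .u I' => I = I'
  | _, _ => False

instance : PartialOrder A where
  le := rel
  le_refl x := by cases x <;> simp [rel]
  le_trans x y z h1 h2 := by
    cases x <;> cases y <;> cases z <;> simp_all [rel]
    exact ⟨_, h1, h2⟩
  le_antisymm x y h1 h2 := by
    cases x <;> cases y <;> simp_all [rel]

lemma countable_A : Countable A := by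
  have : Function.Injective (fun x : A => match x with
    | .l J => (Sum.inl J : Finset ℕ ⊕ (ℕ ⊕ (Finset ℕ ⊕ Unit)))
    | .a n => Sum.inr (Sum.inl n)
    | .u I => Sum.inr (Sum.inr (Sum.inl I))
    | .top => Sum.inr (Sum.inr (Sum.inr ()))) := by
    intro x y h
    cases x <;> cases y <;> simp_all
  exact this.countable

open Polynomial

/-- coefficients allowed: `0`, `1` and the rationals `≥ 2` -/
def Coeffs (p : ℝ[X]) : Prop :=
  ∀ i, p.coeff i = 0 ∨ p.coeff i = 1 ∨ ∃ r : ℚ, 2 ≤ r ∧ p.coeff i = (r : ℝ)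

lemma coeff_nonneg {p : ℝ[X]} (hp : Coeffs p) (i : ℕ) : 0 ≤ p.coeff i := by
  rcases hp i with h | h | ⟨r, hr, h⟩
  · rw [h]
  · rw [h]; norm_num
  · rw [h]; exact_mod_cast (by linarith : (0:ℚ) ≤ r)

lemma one_le_coeff {p : ℝ[X]} (hp : Coeffs p) (i : ℕ) (hi : p.coeff i ≠ 0) : 1 ≤ p.coeff i := by
  rcases hp i with h | h | ⟨r, hr, h⟩
  · exact absurd h hi
  · rw [h]
  · rw [h]; exact_mod_cast (by linarith : (1:ℚ) ≤ r)

lemma pow_le_eval {p : ℝ[X]} (hp : Coeffs p) (i : ℕ) (hi : p.coeff i ≠ 0) {t : ℝ} (ht : 0 ≤ t) :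
    t ^ i ≤ p.eval t := by
  rw [eval_eq_sum, Polynomial.sum]
  calc t ^ i ≤ p.coeff i * t ^ i := le_mul_of_one_le_left (by positivity) (one_le_coeff hp i hi)
    _ ≤ _ := by
      apply Finset.single_le_sum (f := fun j => p.coeff j * t ^ j)
      · intro j _
        exact mul_nonneg (coeff_nonneg hp j) (by positivity)
      · exact mem_support_iff.2 hi

lemma convex_key {ι : Type*} {B : ℕ} (f : ι → (Fin B → ℝ)) (x : ℝ) (m : ℝ) (I : Set ι)
    (h : ∀ i ∈ I, ∑ j, f i j * x ^ (j : ℕ) ≤ m) (p : Fin B → ℝ) (hp : p ∈ convexHull ℝ (f '' I)) :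
    ∑ j, p j * x ^ (j : ℕ) ≤ m := by
  have hc : Convex ℝ {p : Fin B → ℝ | ∑ j, p j * x ^ (j : ℕ) ≤ m} := by
    apply convex_halfSpace_le (f := fun p : Fin B → ℝ => ∑ j, p j * x ^ (j : ℕ))
    constructor
    · intro p q
      simp [add_mul, Finset.sum_add_distrib]
    · intro c p
      simp [mul_assoc, Finset.mul_sum]
  have : convexHull ℝ (f '' I) ⊆ {p : Fin B → ℝ | ∑ j, p j * x ^ (j : ℕ) ≤ m} := by
    apply convexHull_min _ hc
    rintro _ ⟨i, hi, rfl⟩
    exact h i hi
  exact this hp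

lemma convex_key' {ι : Type*} {B : ℕ} (f : ι → (Fin B → ℝ)) (x : ℝ) (m : ℝ) (I : Set ι)
    (h : ∀ i ∈ I, m ≤ ∑ j, f i j * x ^ (j : ℕ)) (p : Fin B → ℝ) (hp : p ∈ convexHull ℝ (f '' I)) :
    m ≤ ∑ j, p j * x ^ (j : ℕ) := by
  have hc : Convex ℝ {p : Fin B → ℝ | m ≤ ∑ j, p j * x ^ (j : ℕ)} := by
    apply convex_halfSpace_ge (f := fun p : Fin B → ℝ => ∑ j, p j * x ^ (j : ℕ))
    constructor
    · intro p q
      simp [add_mul, Finset.sum_add_distrib]
    · intro c p
      simp [mul_assoc, Finset.mul_sum]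
  have : convexHull ℝ (f '' I) ⊆ {p : Fin B → ℝ | m ≤ ∑ j, p j * x ^ (j : ℕ)} := by
    apply convexHull_min _ hc
    rintro _ ⟨i, hi, rfl⟩
    exact h i hi
  exact this hp

/-- There is one countable partial order that order-embeds into
`(P, ≤ pointwise on [s,t])` for no `1 < s < t`; in particular none of these is universal for countable
preorders. -/
theorem result : ∃ (A : Type) (_ : PartialOrder A), Countable A ∧
    ∀ s t : ℝ, 1 < s → s < t →
      ¬ ∃ f : A → Polynomial ℝ,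
        (∀ a i, (f a).coeff i = 0 ∨ (f a).coeff i = 1 ∨
          ∃ r : ℚ, 2 ≤ r ∧ (f a).coeff i = (r : ℝ)) ∧
        ∀ a b, a ≤ b ↔ ∀ x ∈ Set.Icc s t, (f a).eval x ≤ (f b).eval x := by
  refine ⟨A, inferInstance, countable_A, ?_⟩
  rintro s t hs hst ⟨f, hc, hf⟩
  have ht1 : 1 < t := hs.trans hst
  have htmem : t ∈ Set.Icc s t := ⟨hst.le, le_rfl⟩
  -- degree bound
  obtain ⟨B, hB⟩ := pow_unbounded_of_one_lt ((f .top).eval t) ht1
  have hdeg : ∀ n i, B ≤ i → (f (.a n)).coeff i = 0 := by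
    intro n i hi
    by_contra hne
    have h1 := pow_le_eval (hc (.a n)) i hne (by linarith : (0:ℝ) ≤ t)
    have h2 : (f (.a n)).eval t ≤ (f .top).eval t := (hf (.a n) .top).1 trivial t htmem
    have h3 : t ^ B ≤ t ^ i := pow_le_pow_right₀ ht1.le hi
    linarith
  have heval : ∀ n x, (f (.a n)).eval x = ∑ j : Fin B, (f (.a n)).coeff j * x ^ (j : ℕ) := by
    intro n x
    rw [Fin.sum_univ_eq_sum_range (fun j => (f (.a n)).coeff j * x ^ j), eval_eq_sum,
      Polynomial.sum]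
    apply Finset.sum_subset
    · intro i hi
      rw [Finset.mem_range]
      by_contra hlt
      exact (mem_support_iff.1 hi) (hdeg n i (not_lt.1 hlt))
    · intro i _ hi
      rw [notMem_support_iff.1 hi, zero_mul]
  let v : Fin (B + 2) → (Fin B → ℝ) := fun n j => (f (.a n)).coeff j
  have hna : ¬ AffineIndependent ℝ v := by
    intro h
    have h1 := h.card_le_finrank_succ
    have h2 := Submodule.finrank_le (vectorSpan ℝ (Set.range v))
    rw [Module.finrank_fin_fun] at h2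
    rw [Fintype.card_fin] at h1
    omega
  obtain ⟨I, p, hpI, hpJ⟩ := Convex.radon_partition hna
  classical
  let I' : Finset ℕ := (Finset.univ.filter (fun n : Fin (B+2) => n ∈ I)).image Fin.val
  let J' : Finset ℕ := (Finset.univ.filter (fun n : Fin (B+2) => n ∉ I)).image Fin.val
  have hI' : ∀ n : Fin (B+2), n ∈ I → (A.a n : A) ≤ A.u I' := by
    intro n hn
    change (n : ℕ) ∈ I'
    exact Finset.mem_image.2 ⟨n, Finset.mem_filter.2 ⟨Finset.mem_univ _, hn⟩, rfl⟩
  have hJ' : ∀ n : Fin (B+2), n ∉ I → A.l J' ≤ (A.a n : A) := by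
    intro n hn
    change (n : ℕ) ∈ J'
    exact Finset.mem_image.2 ⟨n, Finset.mem_filter.2 ⟨Finset.mem_univ _, hn⟩, rfl⟩
  have hle : A.l J' ≤ A.u I' := by
    rw [hf]
    intro x hx
    have h1 : ∑ j, p j * x ^ (j : ℕ) ≤ (f (A.u I')).eval x := by
      apply convex_key v x _ I _ p hpI
      intro n hn
      rw [← heval]
      exact (hf _ _).1 (hI' n hn) x hx
    have h2 : (f (A.l J')).eval x ≤ ∑ j, p j * x ^ (j : ℕ) := by
      apply convex_key' v x _ Iᶜ _ p hpJ
      intro n hn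
      rw [← heval]
      exact (hf _ _).1 (hJ' n hn) x hx
    exact h2.trans h1
  obtain ⟨n, hn1, hn2⟩ : ∃ n, n ∈ J' ∧ n ∈ I' := hle
  obtain ⟨m, hm, rfl⟩ := Finset.mem_image.1 hn1
  obtain ⟨m', hm', hmm⟩ := Finset.mem_image.1 hn2
  have : m' = m := by
    apply Fin.ext
    exact hmm
  subst this
  simp only [Finset.mem_filter, Finset.mem_univ, true_and] at hm hm'
  exact hm hm'

end Pool.Agent.Results.MP_387adc_co.NotUniversal
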